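import Pool.Agent.U201.PC.Mov
import Pool.Agent.X324.CF.Plus2

set_option autoImplicit false

/-!
# Both cone conjectures for Calabi–Yau pairs: reduction to the Albanese fibre

Let `(X, Δ)` be a klt Calabi–Yau pair. By Ambro (2005) the Albanese map of `(X, Δ)` is a fibre bundle
which becomes trivial after a finite étale covering, and so
`(X, Δ) = (A × (F, Δ_F)) / G`, where `A` is an abelian variety, `(F, Δ_F)` is a klt Calabi–Yau pair of
irregularity zero, and a finite group `G` acts diagonally and freely. The theorem of this file says: if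
`(F, Δ_F)` satisfies the existence parts of (a) and (b), then `(X, Δ)` satisfies (a) and (b), in the
stronger formulation with the groups `Aut(X, Δ)` and `PsAut(X, Δ)`.

Let `A = V / Λ` be an abelian variety, `F` a normal projective variety, `ℚ`-factorial with free class
group, with factorial Cox ring, and `X = (A × F) / G`, where the finite group `G` acts diagonally
(freely or not). Let `Δ` be any effective divisor with real coefficients on `X` such that `Δ · C = 0`
for the images `C` of the curves `C' × {point}` of `A × F`. (If `A × F → X` is étale in codimension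
one, this follows from `K_X + Δ ≡ 0`.) Then the pullback of `Δ` is `A × Δ_F` for a divisor `Δ_F` on `F`.
Suppose that

* there are rational polyhedral cones in `Nef^e(F)` and in `Mov^e(F)`, whose translates under
  `Aut(F, Δ_F)` and `PsAut(F, Δ_F)` cover these cones, and
* only finitely many elements of `PsAut(F, Δ_F)` act trivially on `Cl(F)`. (This holds if `(F, Δ_F)` is
  a klt Calabi–Yau pair of irregularity zero.)

Both groups can be infinite, and nothing is assumed about the action of `G` on the two cones of `F`.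
For `dim F = 2` the hypotheses hold by Totaro (2010). So Q1 holds for all klt Calabi–Yau pairs whose
Albanese fibre is a surface; the movable cone of `X` is not determined by its nef cone, but by the cone
of `F`, which is a surface.

Conclusion: `Nef^e(X)` has a rational polyhedral fundamental domain for the action of `Aut(X, Δ)`, and
`Mov^e(X)` has a rational polyhedral fundamental domain for the action of `PsAut(X, Δ)`.

The proof is given for a general system of positive classes on `F` (`PC.PosSys`), with a group `H`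
of pseudo-automorphisms which contains the image of `G` and has a finite kernel on `Cl(F)`. (1) By the
Siegel property of the action of `H` on the open cone (`EC.siegel`), the groups `φ G φ⁻¹`, `φ ∈ H`,
which have invariant interior classes in the given rational polyhedral cone form finitely many types up
to scalars; so the elements of `H` which commute with `G` up to scalars move the `G`-invariant interior
classes into finitely many rational polyhedral cones (`PC.covering`). (2) For the hermitian forms on
`V` this is reduction theory; the automorphisms of both factors are combined (`PC.coreP`). (3) The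
sections which define the components of `Δ` are constant in the direction of `V` up to exponential
factors (`PC.const_sect`), so these automorphisms preserve `Δ`, and `G` acts through `Aut(F, Δ_F)`.

`IsAutS`, `IsConePair`, `InSupp`, `Keeps` and `TrivialOnA` are defined in `Pool.Agent.U201.PC.Defs`;
`IsPsAutS`, `IsMovConePair`, `IsComp` and `KeepsComp` in `Pool.Agent.U201.PC.MovDefs`; `NefF`, `EffF`,
`IsAut`, `ext`, `Descends`, `IsPull` and `nefEff` in `Pool.Agent.U201.EC.Defs`; `MovF` and `movEff` in
`Pool.Agent.U201.GC.MovDefs`; `MovableF` in `Pool.Agent.U201.CM.MovDefs`; `rv` in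
`Pool.Agent.X324.CF.Poly`; `Cl`, `Semistable`, `SemiampleF`, `Induces`, `Scal`, `Grp`, `base`, `Inv`,
`IsQuotient`, `Sheaf`, `EffDiv`, `N1`, `val`, `integral`, `effective`, `semiample`, `movable`,
`coneHull`, `nefCone`, `movCone` and `effCone` in `Pool.Agent.X324.CF.Defs`; `IsTorusQuotient` in
`Pool.Agent.W594.SYZ.Defs2`; `IsPositiveForm` in `Pool.Agent.W594.SYZ.TQDefs`; `LinGrp`, `Preserves`
and `IsFundDomain` in `Pool.Agent.Y167.Stm`; `cone` in `Pool.Agent.Y167.ConeDef`.
-/

namespace Pool.Agent.Results.MP_ad47bb_ag.BothConesPairs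

open Pool.Agent.W594.SYZ2 Pool.Agent.X324.CF Pool.Agent.U201.EC Pool.Agent.U201.PC
open Pool.Agent.U201.GC (movEff)
open Pool.Agent.Y167 (cone)
open Pool.Agent.Y167.CC (LinGrp Preserves IsFundDomain)

/-- The space `N^1(X)` of numerical classes with real coefficients. -/
abbrev NX {V R : Type*} [NormedAddCommGroup V] [NormedSpace ℂ V] [CommRing R] [Algebra ℂ R] {ρ : ℕ}
    (𝒜 : Cl ρ → Submodule ℂ R) (Γ : Grp V R) : Type _ := N1 𝒜 Γ (LinearMap.id : V →ₗ[ℂ] V)

section

variable {V R : Type*} [NormedAddCommGroup V] [NormedSpace ℂ V] [CommRing R] [Algebra ℂ R] {ρ : ℕ}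
  {𝒜 : Cl ρ → Submodule ℂ R} {Γ : Grp V R} {ι : Type*}

/-- The support of the divisor `Δ_F` on `F`, the restriction of `Δ` to the image of `{0} × F`. -/
def suppF (Δ : EffDiv 𝒜 Γ ι) : Set (R →ₐ[ℂ] ℂ) := {p | InSupp Δ 0 p}

/-- The components of the divisor `Δ_F` on `F`. -/
def compF (Δ : EffDiv 𝒜 Γ ι) : Set R := {π | IsComp Δ 0 π}

/-- `𝒢` is a group of linear automorphisms of `N^1(X)` which preserves the integral classes and the
cone `Nef^e(X)`, and which contains the pullbacks by all automorphisms of `X = (V × F) / Γ` which map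
the support of `Δ` onto itself and are given by pairs `(f, φ)`, where `f` is an affine transformation
of `V` and `φ` an automorphism of `F`. The image of `Aut(X, Δ)` has these properties. -/
structure IsAutXD (u : Cl ρ) (Δ : EffDiv 𝒜 Γ ι) (𝒢 : LinGrp (NX 𝒜 Γ)) : Prop where
  int : Preserves 𝒢 (integral 𝒜 Γ LinearMap.id)
  nef_eff : Preserves 𝒢 (nefEff 𝒜 Γ LinearMap.id u)
  pull : ∀ (f : V ≃ᵃ[ℂ] V) (φ : R ≃ₐ[ℂ] R) (σ : Cl ρ ≃+ Cl ρ), IsAut 𝒜 u φ σ →
    Keeps u Δ f φ → Descends 𝒜 Γ f φ → ∀ g, IsPull f σ g → g ∈ 𝒢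

/-- `𝒢` is a group of linear automorphisms of `N^1(X)` which preserves the integral classes and the
cone `Mov^e(X)`, and which contains the pullbacks by all pseudo-automorphisms of `X = (V × F) / Γ`
which map the support of `Δ` onto itself and are given by pairs `(f, φ)`, where `f` is an affine
transformation of `V` and `φ` a pseudo-automorphism of `F`. The image of `PsAut(X, Δ)` has these
properties. -/
structure IsPsAutXD (Δ : EffDiv 𝒜 Γ ι) (𝒢 : LinGrp (NX 𝒜 Γ)) : Prop where
  int : Preserves 𝒢 (integral 𝒜 Γ LinearMap.id)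
  mov_eff : Preserves 𝒢 (movEff 𝒜 Γ LinearMap.id)
  pull : ∀ (f : V ≃ᵃ[ℂ] V) (φ : R ≃ₐ[ℂ] R) (σ : Cl ρ ≃+ Cl ρ), Induces 𝒜 φ σ →
    KeepsComp Δ f φ → Descends 𝒜 Γ f φ → ∀ g, IsPull f σ g → g ∈ 𝒢

end

/-- Let `X = (V × F) / Γ` be a projective quotient of `A × F` by a finite group acting diagonally, and
`Δ` an effective divisor with real coefficients on `X` which is numerically trivial on the images of
the curves `C' × {point}`, such that `F` and `Δ_F` satisfy the existence parts of the nef and of the
movable cone conjecture. There are finite sets `S` and `S'` of integral classes such that (a) the cone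
spanned by `S` is contained in `Nef^e(X)` and is a fundamental domain for the action of `𝒢` (for
instance, of `Aut(X, Δ)`) on `Nef^e(X)`, and (b) the cone spanned by `S'` is contained in `Mov^e(X)`
and is a fundamental domain for the action of `𝒢'` (for instance, of `PsAut(X, Δ)`) on `Mov^e(X)`. -/
theorem result {V R : Type*} [NormedAddCommGroup V] [NormedSpace ℂ V] [FiniteDimensional ℂ V]
    [CommRing R] [IsDomain R] [Algebra ℂ R] {ρ : ℕ}
    (𝒜 : Cl ρ → Submodule ℂ R) [GradedAlgebra 𝒜] (u : Cl ρ)
    (Γ : Grp V R) (hX : IsQuotient 𝒜 u Γ)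
    (hproj : ∃ (L : Sheaf 𝒜 Γ) (H : V → V → ℂ), L.IsChern H ∧ IsPositiveForm H)
    {ι : Type*} (Δ : EffDiv 𝒜 Γ ι) (hΔ : TrivialOnA Δ)
    (hF : IsConePair 𝒜 u (suppF Δ)) (hM : IsMovConePair 𝒜 u (compF Δ))
    (𝒢 : LinGrp (NX 𝒜 Γ)) (h𝒢 : IsAutXD u Δ 𝒢) (𝒢' : LinGrp (NX 𝒜 Γ)) (h𝒢' : IsPsAutXD Δ 𝒢') :
    (∃ S : Finset (NX 𝒜 Γ), ↑S ⊆ integral 𝒜 Γ LinearMap.id ∧ cone S ⊆ nefEff 𝒜 Γ LinearMap.id u ∧
      IsFundDomain 𝒢 (nefEff 𝒜 Γ LinearMap.id u) (cone S)) ∧
    (∃ S' : Finset (NX 𝒜 Γ), ↑S' ⊆ integral 𝒜 Γ LinearMap.id ∧ cone S' ⊆ movEff 𝒜 Γ LinearMap.id ∧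
      IsFundDomain 𝒢' (movEff 𝒜 Γ LinearMap.id) (cone S')) := by
  obtain ⟨H₀, Rl⟩ := rel_id hX hproj
  exact ⟨core_nef hX Δ hΔ hF Rl 𝒢 h𝒢.int h𝒢.nef_eff
      fun f φ σ h1 h2 h3 _ g hg => h𝒢.pull f φ σ h1 h2 h3 g hg,
    core_mov hX Δ hΔ hM Rl 𝒢' h𝒢'.int h𝒢'.mov_eff
      fun f φ σ h1 h2 h3 _ g hg => h𝒢'.pull f φ σ h1 h2 h3 g hg⟩

end Pool.Agent.Results.MP_ad47bb_ag.BothConesPairs
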