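import Pool.Agent.U660.MD.Nef
import Pool.Agent.Q57.CX.Top

/-!
# The movable cone conjecture for the toroidal models of covers of products of projective spaces

Let `F i` be a form of degree `d i` in `n i + 1` variables whose zero set in the projective
`n i`-space is a smooth hypersurface, and let `H i` be the cyclic hypersurface `w ^ (d i) = F i` in
the projective `(n i + 1)`-space. Let `K` be the function field of a quotient
`Y = (H 1 × ... × H r) / G`, where `G` is any group of diagonal automorphisms
`w i ↦ ζ i * w i`, `ζ i ^ (d i) = 1`. Equivalently, `K` is generated by the affine coordinates
`x i j / x i 0` of the product of the projective `n i`-spaces and by roots `z j`,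
`z j ^ (m j) = ∏ i, (F i (x i) / x i 0 ^ (d i)) ^ (a j i)`, where `m j` divides `a j i * d i`: the
abelian covers of the product of the projective spaces which are branched along the hypersurfaces
`F i = 0` of the factors. There is no condition on the dimensions and the degrees. The toroidal
modifications `X` of `Y` are given by the fans `fan`, and `D 1, ..., D p` are toroidal `ℚ`-Cartier
divisors on `X`; the coefficients of their pullbacks at the prime divisors `P` over `X` are the
`δ i P`. See `Pool.Agent.Results.MP_89a3f8_ag.TerminationOfFlips`, whose definitions (`Smooth`,
`Admissible`, `InCone`, `IsFan`, `affine`, `minimalOrder`, `multiplicities`, `coefficient`,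
`IsSection`, `BasePointFree`, `Semiample`, `IsSmallModification`) are used here.

**Small modifications.** The small modifications `X'` of `X` are the projective varieties which are
isomorphic to `X` in codimension one, such that the strict transforms of the `D i` are `ℚ`-Cartier and
some combination of them is ample (`IsSmallModification`). If all `n i ≥ 3` and the `D i` generate the
toroidal divisors of a `ℚ`-factorial `X` then these are all the `ℚ`-factorial small modifications of
`X`, and the `D i` generate `N¹(X)` (Lefschetz; this remark is not used and not proved here).

**Movable combinations.** `IsMobile`: the linear system `|∑ i, ν i * D i|` is not empty and has no fixed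
divisor. This is expressed in terms of the sections: if the products of the rational function `η` with
all the sections of `∑ i, ν i * D i` are sections of `∑ i, (μ i + ν i) * D i` then `η` is a section of
`∑ i, μ i * D i`. (If `E` was a fixed prime divisor, take `∑ i, μ i * D i` very ample and `η` with a
simple pole along `E`.) `IsMovable`: the closure of the cone of the mobile combinations.

**The theorem.** Assume that some combination of the `D i` is ample on `X` or on some small modification.
(1) There are finitely many small modifications `X 1, ..., X M`, up to isomorphism (two small
modifications with the same coefficients at all prime divisors have the same sections and the same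
ample combinations).
(2) The movable cone is the union of the nef cones of the `X j`, and the nef cones of different `X j` have
disjoint interiors.
(3) The movable cone is spanned by finitely many integral combinations which are mobile. In
particular all movable combinations are effective.
(4) If the `D i` are numerically independent (`lam` and `-lam` are both movable only for `lam = 0`) then
EVERY group `Γ` of invertible integral matrices which preserves the movable cone (for instance
`PsAut(X)` or `PsAut(X, Δ)`, if the classes of the `D i` are a basis of `N¹(X)`) acts with a rational
polyhedral fundamental domain `Π` on it: the movable cone is the union of the `γ Π`, and the interiors of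
`Π` and `γ Π` are disjoint for `γ ≠ 1`. The group `Γ` is finite.

The nef cones of the `X j` (part (a) of the conjecture) are the subject of
`MP_9f99c5_ag.ToroidalModels`. The proof uses the finite generation of the Cox ring
(`Q57.CX.main_cox`); the structure of the movable cone of a Mori dream space is due to Hu and Keel, and is
proved here (`U660/MD`) in terms of the sections and the orders at the prime divisors: for a generic
mobile rational combination `lam` the dual solution `y P` of the linear program for the asymptotic order
of `lam` at `P` defines the coefficients `δ i P - y P i` of a small modification on which `lam` is ample.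
-/

set_option autoImplicit false

open FF MvPolynomial Pool.Agent.W602.GT

namespace Pool.Agent.Results.MP_ad47bb_ag.MovableCone

open Pool.Agent.Results.MP_89a3f8_ag.TerminationOfFlips
open Pool.Agent.U660.MD

/-- **The movable cone conjecture for the toroidal models.** Let `K` be the function field of an
abelian cover `Y` of the product of the projective `n i`-spaces which is branched along smooth
hypersurfaces `F i = 0` of the factors, `X` the toroidal modification of `Y` which is given by `fan`, and
`D i`, `i < p`, toroidal `ℚ`-Cartier divisors on `X` with the degrees `β i t` and the coefficients `c i`,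
some combination of which is ample on some small modification of `X`. There are finitely many
small modifications `δs j` such that every small modification is one of them; the movable cone is the
union of the nef cones of the `δs j`, which have disjoint interiors; it is spanned by finitely many mobile
integral combinations; and, if the `D i` are numerically independent, every group `Γ` of invertible
integral matrices which preserves the movable cone is finite and has a rational polyhedral
fundamental domain on it, spanned by mobile combinations. -/
theorem result (r N R p : ℕ) (n d : Fin r → ℕ) (hr : 1 ≤ r) (hn : ∀ i, 1 ≤ n i)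
    (hd : ∀ i, 1 ≤ d i) (hN : N = ∑ i, n i)
    (F : ∀ i, MvPolynomial (Fin (n i + 1)) ℂ) (hF : ∀ i, (F i).IsHomogeneous (d i))
    (hs : ∀ i, Smooth (F i)) (m : Fin R → ℕ) (hm : ∀ j, 1 ≤ m j) (a : Fin R → Fin r → ℕ)
    (hdiv : ∀ j i, m j ∣ a j i * d i)
    (K : Type) [Field K] [Algebra ℂ K] (x : ∀ i, Fin (n i + 1) → K) (hx0 : ∀ i, x i 0 ≠ 0)
    (hbas : IsTranscendenceBasis ℂ (affine x)) (z : Fin R → K)
    (hz : ∀ j, z j ^ m j = ∏ i, (aeval (x i) (F i) / x i 0 ^ d i) ^ a j i)
    (hgen : IntermediateField.adjoin ℂ (Set.range (affine x) ∪ Set.range z) = ⊤)
    (fan : Finset (Finset (Fin r → ℕ))) (hfan : IsFan m a fan)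
    (c : Fin p → (Fin r → ℕ) → ℚ) (hc0 : ∀ i, c i 0 = 0) (β : Fin p → Fin r → ℤ)
    (u : Finset (Fin r → ℕ) → Fin p → Fin r → ℚ)
    (hlin : ∀ σ ∈ fan, ∀ i v, Admissible m a v → InCone σ v → - c i v = ∑ k, u σ i k * v k)
    (δ : Fin p → Place ℂ K → ℚ) (hδ : ∀ i P, δ i P = coefficient F d x (c i) (β i) P)
    (hX : ∃ δ', IsSmallModification N δ δ') :
    ∃ (M : ℕ) (δs : Fin M → Fin p → Place ℂ K → ℚ), (∀ j, IsSmallModification N δ (δs j)) ∧
      (∀ δ' : Fin p → Place ℂ K → ℚ, IsSmallModification N δ δ' →
        ∃ j, ∀ P : Place ℂ K, Divisorial N P → ∀ i, δ' i P = δs j i P) ∧
      {lam | IsMovable N δ lam} = ⋃ j, {lam | IsNef N (δs j) lam} ∧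
      (∀ j j', (interior {lam | IsNef N (δs j) lam} ∩
          interior {lam | IsNef N (δs j') lam}).Nonempty →
        ∀ P : Place ℂ K, Divisorial N P → ∀ i, δs j i P = δs j' i P) ∧
      (∃ (B : ℕ) (h : Fin B → Fin p → ℤ), (∀ b, IsMobile N δ (h b)) ∧
        {lam | IsMovable N δ lam} = coneOf h) ∧
      ((∀ lam, IsMovable N δ lam → IsMovable N δ (-lam) → lam = 0) →
        ∀ Γ : Subgroup (Matrix (Fin p) (Fin p) ℤ)ˣ,
          (∀ γ ∈ Γ, ∀ lam, IsMovable N δ lam → IsMovable N δ (apply γ lam)) →
          Finite Γ ∧ ∃ (B : ℕ) (π : Fin B → Fin p → ℤ), (∀ b, IsMobile N δ (π b)) ∧
            IsFundamentalDomain Γ {lam | IsMovable N δ lam} (coneOf π)) :=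
  mov_main (Pool.Agent.Q57.CX.main_cox (N := N) hr hn hN hd hF hs hx0 hbas hm hdiv hz hgen (S := fan)
    ⟨hfan.adm, hfan.full, hfan.cover⟩ hc0 (u := u) hlin (β := β) hδ) hX

end Pool.Agent.Results.MP_ad47bb_ag.MovableCone
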