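import Pool.Agent.U660.MD.Nef
import Pool.Agent.U189.ND.Defs

/-!
# The cone conjecture for the toroidal models of the covers branched along normal crossing
# hypersurfaces

**The varieties.** Let `F k`, `k = 0, ..., n`, be forms of degrees `d k` in `n + 1` variables whose
zero sets in the projective `n`-space are smooth hypersurfaces with normal crossings, `Y` a normal
abelian cover of the projective space which is branched only along these hypersurfaces, and `X` the
toroidal modification of `Y` which is given by `fan` (see `Pool/Agent/U189/ND/Defs.lean`, where the
definitions `NormalCrossings`, `Admissible`, `InCone`, `IsFan`, `affine`, `minimalOrder`,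
`multiplicities` and `coefficient` are explained). `D 1, ..., D p` are toroidal `ℚ`-Cartier divisors on
`X`; the coefficients of their pullbacks at the prime divisors `P` over `X` are the `δ i P`.

If `n ≥ 3`, if every generator of a ray has at most `n - 1` positive coordinates (only strata of
positive dimension, which are irreducible, are modified) and if the `D i` generate the toroidal
divisors of a `ℚ`-factorial `X`, then the classes of the `D i` generate `N¹(X)` (Lefschetz; this remark
is not used and not proved here).

**Calabi-Yau pairs.** Many of these `X` carry klt Calabi-Yau pairs `(X, Δ)`: for instance the crepant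
toroidal (partial) resolutions of the covers `Y` with `K_Y = 0`, that is
`∑ k, d k * (1 - 1 / e k) = n + 1` for the ramification indices `e k`; the crepant toroidal blow-ups of the
klt pairs `(P^n, ∑ k, b k * H k)` with `∑ k, b k * d k = n + 1`, `0 ≤ b k < 1` (with `R = 0`); and the
pairs with a boundary `Δ` which is a combination of toroidal divisors and of general members of
free linear systems.

**Small modifications.** `X'` is any projective variety which is isomorphic to `X` in codimension one,
such that the strict transforms of the `D i` are `ℚ`-Cartier and some combination of them is ample
(`IsSmallModification`, with the coefficients `δ'`; `X' = X` is allowed if some combination of the `D i`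
is ample on `X`). `IsNef`: limits of semiample combinations; `IsMobile`: the linear system is not empty
and has no fixed divisor; `IsMovable`: limits of rational combinations with a mobile multiple.

**The theorem.** (1) On every small modification `X'` the cone of the nef real combinations of the `D i`
is spanned by finitely many integral combinations, which are base point free on `X'`. If the `D i` are
numerically independent on `X'` then EVERY group `Γ` of invertible integral matrices which preserves
this cone (for instance `Aut(X')` or `Aut(X', Δ)`, if the classes of the `D i` are a basis of `N¹(X')`) is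
finite and has a rational polyhedral fundamental domain on it, spanned by base point free divisors.
(2) Assume that there is a small modification. There are finitely many small modifications
`X 1, ..., X M`, up to isomorphism; the movable cone is the union of the nef cones of the `X j`, and the
nef cones of different `X j` have disjoint interiors; the movable cone is spanned by finitely many
mobile integral combinations; and if the `D i` are numerically independent (`lam` and `-lam` are both
movable only for `lam = 0`) then EVERY group `Γ` of invertible integral matrices which preserves the
movable cone (for instance `PsAut(X)` or `PsAut(X, Δ)`) is finite and has a rational polyhedral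
fundamental domain on it, spanned by mobile divisors.

This gives both parts of the cone conjecture for all klt Calabi-Yau pairs on these `X'` (in particular
all nef and all movable classes are effective).

**Proof.** New is the finite generation of the Cox ring of `X` (`Pool/Agent/U189/NF`). The deduction
from the finite generation is the library of `helper660` (`Pool/Agent/U660/MD`), which was used in
`MP_9f99c5_ag.ToroidalModels` and `MP_ad47bb_ag.MovableCone` for another class: the covers of products
of projective spaces with one smooth hypersurface in each factor. Here several hypersurfaces with
normal crossings are in the same projective space.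
-/

set_option autoImplicit false

open FF MvPolynomial Pool.Agent.W602.GT

namespace Pool.Agent.Results.MP_ad47bb_ag.NormalCrossingModels

open Pool.Agent.Results.MP_89a3f8_ag.TerminationOfFlips
  (IsSection BasePointFree Semiample IsSmallModification)
open Pool.Agent.U660.MD Pool.Agent.U189.ND

/-- **The cone conjecture for the toroidal models and their small modifications.** Let `K` be the
function field of an abelian cover `Y` of the projective `n`-space which is branched along `n + 1`
hypersurfaces `F k = 0` with normal crossings, `X` the toroidal modification of `Y` which is given by
`fan`, and `D i`, `i < p`, toroidal `ℚ`-Cartier divisors on `X` with the degrees `β i` and the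
coefficients `c i`.
(1) For each small modification `X'` of `X` (with the coefficients `δ'`) the cone of the nef real
combinations is spanned by finitely many base point free integral ones. If the `D i` are numerically
independent on `X'`, every group `Γ` of invertible integral matrices which preserves the nef cone is
finite, and some cone which is spanned by finitely many combinations which are base point free on `X'`
is a fundamental domain for the action of `Γ` on the nef cone.
(2) If there is a small modification, then there are finitely many small modifications `δs j` such
that every small modification is one of them; the movable cone is the union of the nef cones of the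
`δs j`, which have disjoint interiors; it is spanned by finitely many mobile integral combinations;
and, if the `D i` are numerically independent, every group `Γ` of invertible integral matrices which
preserves the movable cone is finite and has a rational polyhedral fundamental domain on it, spanned by
mobile combinations. -/
theorem result (n R p : ℕ) (hn : 1 ≤ n) (d : Fin (n + 1) → ℕ) (hd : ∀ k, 1 ≤ d k)
    (F : Fin (n + 1) → MvPolynomial (Fin (n + 1)) ℂ) (hF : ∀ k, (F k).IsHomogeneous (d k))
    (hs : NormalCrossings F) (m : Fin R → ℕ) (hm : ∀ j, 1 ≤ m j) (a : Fin R → Fin (n + 1) → ℕ)
    (hdiv : ∀ j, m j ∣ ∑ k, a j k * d k)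
    (K : Type) [Field K] [Algebra ℂ K] (x : Fin (n + 1) → K) (hx0 : x 0 ≠ 0)
    (hbas : IsTranscendenceBasis ℂ (affine x)) (z : Fin R → K)
    (hz : ∀ j, z j ^ m j = ∏ k, (aeval x (F k) / x 0 ^ d k) ^ a j k)
    (hgen : IntermediateField.adjoin ℂ (Set.range (affine x) ∪ Set.range z) = ⊤)
    (fan : Finset (Finset (Fin (n + 1) → ℕ))) (hfan : IsFan m a fan)
    (c : Fin p → (Fin (n + 1) → ℕ) → ℚ) (hc0 : ∀ i, c i 0 = 0) (β : Fin p → ℤ)
    (u : Finset (Fin (n + 1) → ℕ) → Fin p → Fin (n + 1) → ℚ)
    (hlin : ∀ σ ∈ fan, ∀ i v, Admissible m a v → InCone σ v → - c i v = ∑ k, u σ i k * v k)
    (δ : Fin p → Place ℂ K → ℚ) (hδ : ∀ i P, δ i P = coefficient F d x (c i) (β i) P) :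
    (∀ δ' : Fin p → Place ℂ K → ℚ, IsSmallModification n δ δ' →
      (∃ (B : ℕ) (h : Fin B → Fin p → ℤ), (∀ b, BasePointFree n δ' (h b)) ∧
        {lam | IsNef n δ' lam} = coneOf h) ∧
      ((∀ lam, IsNef n δ' lam → IsNef n δ' (-lam) → lam = 0) →
        ∀ Γ : Subgroup (Matrix (Fin p) (Fin p) ℤ)ˣ,
          (∀ γ ∈ Γ, ∀ lam, IsNef n δ' lam → IsNef n δ' (apply γ lam)) →
          Finite Γ ∧ ∃ (M : ℕ) (π : Fin M → Fin p → ℤ), (∀ b, BasePointFree n δ' (π b)) ∧
            IsFundamentalDomain Γ {lam | IsNef n δ' lam} (coneOf π))) ∧
    ((∃ δ', IsSmallModification n δ δ') →
      ∃ (M : ℕ) (δs : Fin M → Fin p → Place ℂ K → ℚ), (∀ j, IsSmallModification n δ (δs j)) ∧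
        (∀ δ' : Fin p → Place ℂ K → ℚ, IsSmallModification n δ δ' →
          ∃ j, ∀ P : Place ℂ K, Divisorial n P → ∀ i, δ' i P = δs j i P) ∧
        {lam | IsMovable n δ lam} = ⋃ j, {lam | IsNef n (δs j) lam} ∧
        (∀ j j', (interior {lam | IsNef n (δs j) lam} ∩
            interior {lam | IsNef n (δs j') lam}).Nonempty →
          ∀ P : Place ℂ K, Divisorial n P → ∀ i, δs j i P = δs j' i P) ∧
        (∃ (B : ℕ) (h : Fin B → Fin p → ℤ), (∀ b, IsMobile n δ (h b)) ∧
          {lam | IsMovable n δ lam} = coneOf h) ∧
        ((∀ lam, IsMovable n δ lam → IsMovable n δ (-lam) → lam = 0) →
          ∀ Γ : Subgroup (Matrix (Fin p) (Fin p) ℤ)ˣ,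
            (∀ γ ∈ Γ, ∀ lam, IsMovable n δ lam → IsMovable n δ (apply γ lam)) →
            Finite Γ ∧ ∃ (B : ℕ) (π : Fin B → Fin p → ℤ), (∀ b, IsMobile n δ (π b)) ∧
              IsFundamentalDomain Γ {lam | IsMovable n δ lam} (coneOf π))) := by
  have h := cox_nc n R p hn d hd F hF hs m hm a hdiv K x hx0 hbas z hz hgen fan hfan c hc0 β u hlin
    δ hδ
  exact ⟨fun δ' hδ' => nef_main h hδ', fun hX => mov_main h hX⟩

end Pool.Agent.Results.MP_ad47bb_ag.NormalCrossingModels
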