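import Pool.Agent.U201.PR.BothFin

set_option autoImplicit false

/-!
# Both cone conjectures for products of pairs

Products of klt Calabi–Yau pairs are klt Calabi–Yau pairs. The theorem of this file says: the
existence parts of (a) and (b), for the groups `Aut(F, Δ)` and `PsAut(F, Δ)` of the stronger
formulation, together with a finite kernel, are closed under products.

Let `𝒞` be a set of pairs `(F_i, Δ_i)`, where `F_i` is a normal projective variety, `ℚ`-factorial with
free class group, such that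

* there are rational polyhedral cones in `Nef^e(F_i)` and in `Mov^e(F_i)` whose translates under
  `Aut(F_i, Δ_i)` cover `Nef^e(F_i)`, and under `PsAut(F_i, Δ_i)` cover `Mov^e(F_i)`, and
* only finitely many pseudo-automorphisms of `(F_i, Δ_i)` act trivially on `Cl(F_i)`.

Then every product of finitely many pairs in `𝒞` has the same properties; the divisor of the product
`(F₁, Δ₁) × (F₂, Δ₂)` is `Δ₁ × F₂ + F₁ × Δ₂`. Moreover, the nef cone, the closed movable cone and the
effective cone of a product are the products of the cones of the factors, and every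
pseudo-automorphism of the product pair which acts trivially on the class group is (on the Cox ring)
a product of pseudo-automorphisms of the pairs. The group of all automorphisms of `F_i` which act
trivially on `Cl(F_i)` can have positive dimension.

The varieties are given by their Cox rings, which are factorial, and by the Künneth formula the Cox
ring of a product is the tensor product of the Cox rings. The proof: a divisor in the Cox ring of a
section which comes from the first factor comes from the first factor (`PR.dvd_split₁`); hence the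
pullbacks of prime divisors are prime (`PR.prime_mk₁`), and a pseudo-automorphism of the product which
acts trivially on the classes and preserves the components of the product divisor permutes the
components of the form `D × F₂` and those of the form `F₁ × D` (`PR.split_psAutS`).
-/

namespace Pool.Agent.Results.MP_ad47bb_ag.ProductsBothCones

open Pool.Agent.X324.CF Pool.Agent.U201.EC Pool.Agent.U201.PC Pool.Agent.U201.PR
  Pool.Agent.U201.GC

theorem result :
    (∀ 𝒞 : Pair → Prop, (∀ F, 𝒞 F → BothGood F) → ∀ F, FactorialPairProductOf 𝒞 F → BothGood F) ∧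
    ∀ (F₁ F₂ : Pair) (R : Type) [CommRing R] [Algebra ℂ R] [IsDomain R]
      (𝒜 : Cl (F₁.ρ + F₂.ρ) → Submodule ℂ R) [GradedAlgebra 𝒜] (ι₁ : F₁.R →ₐ[ℂ] R)
      (ι₂ : F₂.R →ₐ[ℂ] R), UniqueFactorizationMonoid R → BothGood F₁ → BothGood F₂ →
      IsProduct F₁.𝒜 F₂.𝒜 𝒜 ι₁ ι₂ →
      (∀ b, b ∈ NefF 𝒜 (Fin.append F₁.u F₂.u) ↔
        pr1 b ∈ NefF F₁.𝒜 F₁.u ∧ pr2 b ∈ NefF F₂.𝒜 F₂.u) ∧
      (∀ b, b ∈ MovF 𝒜 ↔ pr1 b ∈ MovF F₁.𝒜 ∧ pr2 b ∈ MovF F₂.𝒜) ∧
      (∀ b, b ∈ EffF 𝒜 ↔ pr1 b ∈ EffF F₁.𝒜 ∧ pr2 b ∈ EffF F₂.𝒜) ∧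
      (∀ φ : R ≃ₐ[ℂ] R, IsPsAutS 𝒜 {π | π ∣ ι₁ F₁.f * ι₂ F₂.f} φ (AddEquiv.refl _) →
        ∃ (φ₁ : F₁.R ≃ₐ[ℂ] F₁.R) (φ₂ : F₂.R ≃ₐ[ℂ] F₂.R),
          IsPsAutS F₁.𝒜 {π | π ∣ F₁.f} φ₁ (AddEquiv.refl _) ∧
          IsPsAutS F₂.𝒜 {π | π ∣ F₂.f} φ₂ (AddEquiv.refl _) ∧
          (∀ a, φ (ι₁ a) = ι₁ (φ₁ a)) ∧ ∀ a, φ (ι₂ a) = ι₂ (φ₂ a)) :=
  ⟨fun _ h𝒞 _ hF => bothGood_prod h𝒞 hF,
    fun _ _ _ _ _ _ _ _ _ _ hR h1 h2 P => both_cones_prod hR h1 h2 P⟩

end Pool.Agent.Results.MP_ad47bb_ag.ProductsBothCones
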